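import Pool.Agent.Lib.BE.AllP

/-!
Systems `x j i = a j * u j i * n + h j i`, `j < L`, `i < m`, for example `a j = g ^ j` (scales `g ^ j * n`, up to fixed
errors), of EVERY length `L`, in which ALL terms are almost primes with one ABSOLUTE constant `C` (every prime factor
of `x j i` is at least `(x j i) ^ (1 / C)`), and for a proportion `1 / 60` of the places `j`, `k` equally spaced ones
among them, ALL `m` terms `x j i`, `i < m`, are primes. The pairs `(u j i, h j i)` are fixed elements of an arbitrary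
set of pairs with infinitely many quotients `h / u`: for example `(1, h)` (bounded errors) or `(u, 1)` (exact shift).
-/

namespace Pool.Agent.Results.MP_9f2731_nt.AbsoluteChains

theorem result :
    ∃ C : ℕ, ∀ k m : ℕ, 1 ≤ k → 1 ≤ m → ∃ L₀ : ℕ, ∀ L : ℕ, L₀ ≤ L →
      ∀ (a : ℕ → ℕ) (M : ℕ) (S : Set (ℕ × ℤ)), (∀ j, j < L → 1 ≤ a j) → 1 ≤ M → (∀ s ∈ S, 1 ≤ s.1) →
      ((fun s : ℕ × ℤ => (s.2 : ℚ) / s.1) '' S).Infinite →
      (∀ s ∈ S, IsCoprime (M : ℤ) s.2 ∧ (∀ j, j < L → IsCoprime (a j : ℤ) s.2) ∧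
        ∀ s' ∈ S, IsCoprime (s'.1 : ℤ) s.2) →
      ∃ (u : ℕ → ℕ → ℕ) (h : ℕ → ℕ → ℤ) (J : Finset ℕ), (∀ j i, j < L → i < m → (u j i, h j i) ∈ S) ∧
        (∀ j i j' i', j < L → i < m → j' < L → i' < m → (j, i) ≠ (j', i') →
          (u j i : ℤ) * h j' i' ≠ u j' i' * h j i) ∧
        J ⊆ Finset.range L ∧ (L : ℝ) / 60 ≤ (J.card : ℝ) ∧ (∃ x₀ d, 1 ≤ d ∧ ∀ i, i < k → x₀ + i * d ∈ J) ∧
        {n : ℕ | M ∣ n ∧ ∃ x : ℕ → ℕ → ℕ, (∀ j i, j < L → i < m →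
            (x j i : ℤ) = (a j : ℤ) * u j i * n + h j i ∧ 1 ≤ x j i ∧
            (x j i).primeFactorsList.length ≤ C ∧ ∀ p : ℕ, p.Prime → p ∣ x j i → x j i ≤ p ^ C) ∧
          ∀ j ∈ J, ∀ i, i < m → (x j i).Prime}.Infinite :=
  Pool.Agent.Lib.BE.chQAll

end Pool.Agent.Results.MP_9f2731_nt.AbsoluteChains
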