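import Pool.Agent.Lib.MP_9f2731_nt.PL.All
import Pool.Agent.Lib.MP_9f2731_nt.PL.HandIn

/-!
Almost every prime in suitable progressions is the first term of many generalized Cunningham chains
of the second kind of given length with a polylogarithmic ratio, and of none with a ratio which is
a smaller power of the logarithm.
-/

namespace Pool.Agent.Results.MP_9f2731_nt.AlmostAllPolylogRatio

/-- the sequence `p_1 = q`, `p_(i+1) = r p_i - (r - 1)` has prime terms `p_1, ..., p_k` -/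
def Starts (k r q : ℕ) : Prop :=
  ∃ p : ℕ → ℕ, p 1 = q ∧ (∀ i, 1 ≤ i → i ≤ k → (p i).Prime) ∧
    ∀ i, 1 ≤ i → (p (i + 1) : ℤ) = r * p i - (r - 1)

theorem result (k : ℕ) (B δ ε : ℝ) (hδ : 0 < δ) (hε : 0 < ε) :
    ∃ C X₀ : ℝ, ∀ X : ℕ, X₀ ≤ X → ∃ Q : ℕ, 1 ≤ Q ∧
      (Q : ℝ) ≤ Real.exp (Real.log (Real.log X) ^ (2 + ε)) ∧
      X / (4 * Real.log X) ≤ (({b : ℕ | 1 ≤ b ∧ b ≤ X ∧ (Q * b + 1).Prime}.ncard : ℕ) : ℝ) ∧
      (({b : ℕ | 1 ≤ b ∧ b ≤ X ∧ (Q * b + 1).Prime ∧ ¬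
        ((∀ r : ℕ, 2 ≤ r → Starts k r (Q * b + 1) → Real.log X ^ (k - 1 - ε) < r) ∧
          Real.log X ^ B ≤ (({r : ℕ | 2 ≤ r ∧ (r : ℝ) ≤ Real.log X ^ C ∧
            Starts k r (Q * b + 1)}.ncard : ℕ) : ℝ))}.ncard : ℕ) : ℝ) ≤
        δ * (({b : ℕ | 1 ≤ b ∧ b ≤ X ∧ (Q * b + 1).Prime}.ncard : ℕ) : ℝ) :=
  Pool.Agent.Lib.MP_9f2731_nt.PL.pl_handin Pool.Agent.Lib.MP_9f2731_nt.PL.plFib
    Pool.Agent.Lib.MP_9f2731_nt.PL.plLb k B δ ε hδ hε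

end Pool.Agent.Results.MP_9f2731_nt.AlmostAllPolylogRatio
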