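import Pool.Agent.Lib.MP_9f2731_nt.PL.Tp.Fin
import Pool.Agent.Lib.MP_9f2731_nt.PL.Tp.HandIn

/-!
Among any K(m) multipliers there are m + 1 multipliers g such that, for every k, a positive proportion of the integers b has
a small factor s for which, with at least (log X)^B ratios r which are at most a power of log X, the numbers g r^i b s + 1
(i < k) are all prime, while all the numbers h r^i b s + 1 with 1 ≤ h ≤ L, i < k have at most C(L) prime factors. For the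
powers of 2: generalized Cunningham chains of the second kind of every length k, every term of which starts a sequence with
ratio exactly 2 and arbitrary length L, consisting of numbers with at most C(L) prime factors, with primes at m + 1 fixed
places.
-/

namespace Pool.Agent.Results.MP_9f2731_nt.PolylogGrids

theorem result :
    ∀ m : ℕ, ∃ K : ℕ, ∀ G : Finset ℕ, K ≤ G.card → (∀ g ∈ G, 1 ≤ g) →
      ∃ J : Finset ℕ, J ⊆ G ∧ J.card = m + 1 ∧ ∀ L : ℕ, ∃ C : ℕ, ∀ (k : ℕ) (B : ℝ),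
        ∃ (c D X₀ : ℝ) (𝒥 : ℕ → Finset ℕ), 0 < c ∧ (∀ X : ℕ, 𝒥 X ⊆ G ∧ (𝒥 X).card = m + 1) ∧
          (∀ X₁ : ℕ, ∃ X : ℕ, X₁ ≤ X ∧ 𝒥 X = J) ∧ ∀ X : ℕ, X₀ ≤ X →
            c * X ≤ (({b : ℕ | 1 ≤ b ∧ b ≤ X ∧ ∃ s : ℕ, 1 ≤ s ∧
              (s : ℝ) ≤ Real.exp (Real.log (Real.log X) ^ 5) ∧
              Real.log X ^ B ≤ (({r : ℕ | 2 ≤ r ∧ (r : ℝ) ≤ Real.log X ^ D ∧
                ∀ i : ℕ, i < k → (∀ g ∈ 𝒥 X, (g * r ^ i * (b * s) + 1).Prime) ∧
                  ∀ h : ℕ, 1 ≤ h → h ≤ L →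
                    (h * r ^ i * (b * s) + 1).primeFactorsList.length ≤ C}.ncard : ℕ) : ℝ)}.ncard : ℕ) : ℝ) :=
  Pool.Agent.Lib.MP_9f2731_nt.PL.Tp.pg_handin Pool.Agent.Lib.MP_9f2731_nt.PL.Tp.tpFin

end Pool.Agent.Results.MP_9f2731_nt.PolylogGrids
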