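import Pool.Agent.Lib.MP_9f2731_nt.SS.All

/-!
Dense sets of primes contain `k` primes `p 1, ..., p k` with
`p (i + 1) = 2 ^ d * p i - (2 ^ d - 1) * h`, where `d` is bounded and the shift `h` is at most a
power of the logarithm of `p 1`.
-/

set_option autoImplicit false

namespace Pool.Agent.Results.MP_9f2731_nt.SmallShiftChains

theorem result (k : ℕ) :
    ∃ C : ℝ, ∀ δ : ℝ, 0 < δ → ∃ D : ℕ, ∀ M : ℕ, 1 ≤ M → ∃ Z₀ : ℕ,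
      ∀ Z Y : ℕ, Z₀ ≤ Z → 2 ^ D * Z ≤ Y → ∀ A : Finset ℕ, (∀ p ∈ A, p.Prime ∧ Z < p ∧ p ≤ Y) →
        δ * Real.log (Y / Z) ≤ ∑ p ∈ A, Real.log p / p →
        ∃ d h : ℕ, 1 ≤ d ∧ d ≤ D ∧ 1 ≤ h ∧ ∃ p : ℕ → ℕ, (h : ℝ) ≤ Real.log (p 1) ^ C ∧
          (∀ i : ℕ, 1 ≤ i → i ≤ k → p i ∈ A) ∧
          (∀ i : ℕ, 1 ≤ i → (p (i + 1) : ℤ) = 2 ^ d * p i - (2 ^ d - 1) * h) ∧
          p 1 ≡ h [MOD M] :=
  Pool.Agent.Lib.MP_9f2731_nt.SS.longAll k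

end Pool.Agent.Results.MP_9f2731_nt.SmallShiftChains
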